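import Pool.Agent.L7h84.CA.Dich

/-!
# Short periodic geodesics of metrics with a circle symmetry, and complex line bundles

`X` is a compact metric space in which any two points are joined by a minimal geodesic and minimal
geodesics between points at distance less than `r` are unique (every closed Riemannian manifold).
The circle acts on `X` by isometries, and `F` is a continuous equivariant map of `X` to the complex
projective space of `ℂ^m`, on which the circle acts linearly with the weights `a` (that is, a complex
line bundle over `X` to which the action lifts; a bijective `F` means that `X` is a projective space).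

1. If the weights over two fixed points `p`, `q` differ, then `X` has a periodic geodesic of length at
   most `2 d(p, q)`.
2. If all fixed points are at mutual distances at most `D` (for example, `D` the diameter), then `X`
   has a periodic geodesic of length at most `2 D`, or some tensor power of the line bundle is the
   pull-back of a line bundle over the orbit space: the `K`-th tensor power of `F` is homotopic to a
   map `G` to a complex projective space which is constant on the orbits.
3. If moreover the orbit space has covering dimension at most `2 n - 1` (`OrbitDim`; for example if
   `X` is a closed manifold of dimension `2 n` and the action is not trivial), then `X` has a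
   periodic geodesic of length at most `2 D`, or some tensor power of `F` is homotopic to a map to the
   complex projective space of dimension `n - 1` (so the `n`-th power of the first Chern class of
   the line bundle is a torsion class).
4. Every metric on the complex projective space of dimension `m - 1` which is invariant under a
   circle of projective unitary maps with the weights `a`, `a i ≠ a j`, has a periodic geodesic of
   length at most twice the distance of the points `e_i` and `e_j`.

Idea of the proof: let `c` be a minimal geodesic from `p` to `q`.  The closed curves which consist of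
`c` and of the image of `c` under an element `z` of the circle, traversed backwards, have length
`2 d(p, q)`, and for `z = 1` the curve contracts along itself.  If there is no periodic geodesic of
length at most `2 d(p, q)`, the curve shortening deforms all these closed curves to points, so that the
sphere `z • c(t)` is contractible relatively to `p`, `q`.  Its degree in the projective space is
the difference of the weights over `p` and `q`.  So all weights are equal, and one can subtract them;
a power of `F` is then the projectivisation of an invariant section.
-/

set_option autoImplicit false

open Set Topology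

namespace Pool.Agent.Results.MP_3eff7f_gt.CircleSymmetry

open Pool.Agent.Y489.GE Pool.Agent.L7h84.CA

theorem result :
    ∀ (X : Type) [MetricSpace X] [CompactSpace X] (r : ℝ), 0 < r → GeodSpace X → UniqGeod X r →
      ∀ [MulAction Circle X] [ContinuousSMul Circle X] [IsIsometricSMul Circle X] (m : ℕ)
      (F : X → Matrix (Fin m) (Fin m) ℂ) (a : Fin m → ℤ), Continuous F → (∀ x, Line (F x)) →
      Equi F a →
      -- 1. different weights
      (∀ p q : X, (∀ z : Circle, z • p = p) → (∀ z : Circle, z • q = q) →
        (∃ i j : Fin m, F p i i ≠ 0 ∧ F q j j ≠ 0 ∧ a i ≠ a j) → ClosedGeod X (2 * dist p q)) ∧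
      (∀ D : ℝ, (∀ p q : X, (∀ z : Circle, z • p = p) → (∀ z : Circle, z • q = q) →
          dist p q ≤ D) →
        -- 2. line bundles over the orbit space
        (ClosedGeod X (2 * D) ∨
          ∃ (K N : ℕ) (G : X → Matrix (Fin N) (Fin N) ℂ)
            (H : X → ℝ → Matrix ((Fin K → Fin m) ⊕ Fin N) ((Fin K → Fin m) ⊕ Fin N) ℂ),
            0 < K ∧ Continuous G ∧ (∀ x, Line (G x)) ∧
            (∀ (z : Circle) (x : X), G (z • x) = G x) ∧
            Continuous (fun q : X × ℝ => H q.1 q.2) ∧ (∀ x s, Line (H x s)) ∧
            (∀ x, H x 0 = Matrix.fromBlocks (tpow K (F x)) 0 0 0) ∧
            ∀ x, H x 1 = Matrix.fromBlocks 0 0 0 (G x)) ∧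
        -- 3. orbit spaces of dimension at most `2 n - 1`
        ∀ n : ℕ, OrbitDim X n → ClosedGeod X (2 * D) ∨
          ∃ (K : ℕ) (G : X → Matrix (Fin n) (Fin n) ℂ)
            (H : X → ℝ → Matrix ((Fin K → Fin m) ⊕ Fin n) ((Fin K → Fin m) ⊕ Fin n) ℂ),
            0 < K ∧ Continuous G ∧ (∀ x, Line (G x)) ∧
            Continuous (fun q : X × ℝ => H q.1 q.2) ∧ (∀ x s, Line (H x s)) ∧
            (∀ x, H x 0 = Matrix.fromBlocks (tpow K (F x)) 0 0 0) ∧
            ∀ x, H x 1 = Matrix.fromBlocks 0 0 0 (G x)) ∧
      -- 4. complex projective spaces
      (Function.Injective F → range F = {P | Line P} → ∀ i j : Fin m, a i ≠ a j →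
        ∃ p q : X, (∀ z : Circle, z • p = p) ∧ (∀ z : Circle, z • q = q) ∧
          F p = Matrix.single i i 1 ∧ F q = Matrix.single j j 1 ∧
          ClosedGeod X (2 * dist p q)) := by
  intro X _ _ r hr hX hU _ _ _ m F a hF hl hE
  refine ⟨?_, ?_, ?_⟩
  · rintro p q hp hq ⟨i, j, hi, hj, hij⟩
    exact two_weights hr hX hU hF hl hE hp hq hi hj hij
  · intro D hD
    constructor
    · by_cases hno : ClosedGeod X (2 * D)
      · exact Or.inl hno
      · exact Or.inr (dich_inv hr hX hU hF hl hE hD hno)
    · intro n hn
      by_cases hno : ClosedGeod X (2 * D)
      · exact Or.inl hno
      · exact Or.inr (dich_dim hr hX hU hF hl hE hD hn hno)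
  · intro hinj hran i j hij
    exact projective hr hX hU hF hinj hran hE hij

end Pool.Agent.Results.MP_3eff7f_gt.CircleSymmetry
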