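import Pool.Agent.L7h61.CL.Cut
import Pool.Agent.Y467.GE.MG
import Pool.Agent.Y165.GE.CG
import Pool.Agent.Y590.GE.BK
import Pool.Agent.Y812.GE.EN
import Pool.Agent.Y489.GE.Fin

/-!
# Short periodic geodesics from two points with disjoint cut loci

`X` is a compact metric space in which any two points are joined by a minimal geodesic and minimal
geodesics between points at distance less than `r` are unique (every closed Riemannian manifold).

1. Gluing theorem. Let `f, g : W → X` be maps of a normal space which is the union of two open sets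
   `A` and `B`. Suppose that over `A` they are joined by a homotopy with tracks of length at most
   `S w`, over `B` by a homotopy with tracks of length at most `T w`, and that `S + T ≤ c` on the
   intersection. Then `X` has a periodic geodesic of length at most `c`, or `f` and `g` are
   homotopic.
2. Let `f, P, Q : W → X`. If `f w` and `P w` are joined by a unique minimal geodesic for `w` in `A`,
   `f w` and `Q w`, and `Q w` and `P w`, for `w` in `B`, and the triangles `f w, P w, Q w` have
   perimeter at most `c`, then `X` has a periodic geodesic of length at most `c`, or `f` and `P` are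
   homotopic.
3. If `X` is the union of two open sets `A` and `B`, such that every point of `A` (of `B`) is joined
   to `p` (to `q`) by a unique minimal geodesic and the triangles `x, p, q` with `x` in `A ∩ B` have
   perimeter at most `c`, and `X` is not contractible (closed manifolds), then there is a periodic
   geodesic of length at most `c`.
4. If `X` is not contractible and the cut loci of two points are disjoint, then there is a periodic
   geodesic of length at most `3 diam X`.
-/

set_option autoImplicit false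

open Set Topology Filter

namespace Pool.Agent.Results.MP_3eff7f_gt.DisjointCutLoci

open Pool.Agent.Y489.GE Pool.Agent.L7h61.CL

theorem result (X : Type) [MetricSpace X] [CompactSpace X] (r : ℝ) (hr : 0 < r)
    (hX : GeodSpace X) (hU : UniqGeod X r) :
    (∀ (W : Type) [TopologicalSpace W] [NormalSpace W] (f g : C(W, X)) (A B : Set W)
      (α β : W → ℝ → X) (S T : W → ℝ) (c : ℝ), 0 < c → IsOpen A → IsOpen B → A ∪ B = univ →
      ContinuousOn α A → ContinuousOn β B → ContinuousOn S A → ContinuousOn T B →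
      (∀ w ∈ A, Trk (α w) (f w) (g w) (S w) ∧ 0 ≤ S w) →
      (∀ w ∈ B, Trk (β w) (f w) (g w) (T w) ∧ 0 ≤ T w) →
      (∀ w ∈ A ∩ B, S w + T w ≤ c) → ClosedGeod X c ∨ f.Homotopic g) ∧
    (∀ (W : Type) [TopologicalSpace W] [NormalSpace W] (f P Q : C(W, X)) (A B : Set W)
      (c : ℝ), 0 < c → IsOpen A → IsOpen B → A ∪ B = univ →
      (∀ w ∈ A, ¬ TwoGeod (f w) (P w)) → (∀ w ∈ B, ¬ TwoGeod (f w) (Q w)) →
      (∀ w ∈ B, ¬ TwoGeod (Q w) (P w)) →
      (∀ w ∈ A ∩ B, dist (f w) (P w) + dist (f w) (Q w) + dist (Q w) (P w) ≤ c) →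
      ClosedGeod X c ∨ f.Homotopic P) ∧
    (∀ (p q : X) (A B : Set X) (c : ℝ), IsOpen A → IsOpen B → A ∪ B = univ →
      (∀ x ∈ A, ¬ TwoGeod x p) → (∀ x ∈ B, ¬ TwoGeod x q) →
      (∀ x ∈ A ∩ B, dist x p + dist x q + dist p q ≤ c) → ¬ ContractibleSpace X → 0 < c →
      ClosedGeod X c) ∧
    (∀ p q : X, Disjoint (CutLocus p) (CutLocus q) → ¬ ContractibleSpace X →
      ClosedGeod X (3 * Metric.diam (univ : Set X))) := by
  obtain ⟨m, hm⟩ := Pool.Agent.Y467.GE.t_MG X r hr hX hU
  have hr2 : 0 < r / 2 := by linarith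
  obtain ⟨Θ, hΘ1, hΘ2⟩ := exists_field hX
  have h1 : ∀ (W : Type) [TopologicalSpace W] [NormalSpace W] (f g : C(W, X)) (A B : Set W)
      (α β : W → ℝ → X) (S T : W → ℝ) (c : ℝ), 0 < c → IsOpen A → IsOpen B → A ∪ B = univ →
      ContinuousOn α A → ContinuousOn β B → ContinuousOn S A → ContinuousOn T B →
      (∀ w ∈ A, Trk (α w) (f w) (g w) (S w) ∧ 0 ≤ S w) →
      (∀ w ∈ B, Trk (β w) (f w) (g w) (T w) ∧ 0 ≤ T w) →
      (∀ w ∈ A ∩ B, S w + T w ≤ c) → ClosedGeod X c ∨ f.Homotopic g := by
    intro W _ _ f g A B α β S T c hc hA hB hAB hα hβ hS hT hα1 hβ1 hST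
    by_cases hno : ClosedGeod X c
    · exact Or.inl hno
    · right
      have hC := fillC_of_no Pool.Agent.Y165.GE.t_CG
        (Pool.Agent.Y590.GE.t_BK Pool.Agent.Y812.GE.t_EN) hm hr2 hc hno
      exact glue_open hC W f g A B hA hB hAB α β S T hα hβ hS hT hα1 hβ1
        (fun w ha hb => hST w ⟨ha, hb⟩)
  -- tracks along minimal geodesics
  have hfield : ∀ (W : Type) [TopologicalSpace W] (f P : C(W, X)) (A : Set W),
      (∀ w ∈ A, ¬ TwoGeod (f w) (P w)) → ContinuousOn (fun w => Θ (f w, P w)) A := by
    intro W _ f P A hA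
    have e1 : ContinuousOn Θ {z | ¬ TwoGeod z.1 z.2} := hΘ2 _ fun z hz => hz
    exact e1.comp ((map_continuous f).prodMk (map_continuous P)).continuousOn hA
  have hdc : ∀ (W : Type) [TopologicalSpace W] (f P : C(W, X)),
      Continuous fun w => dist (f w) (P w) := fun W _ f P =>
    (map_continuous f).dist (map_continuous P)
  have h2 : ∀ (W : Type) [TopologicalSpace W] [NormalSpace W] (f P Q : C(W, X)) (A B : Set W)
      (κ : W → ℝ → X) (c : ℝ), 0 < c → IsOpen A → IsOpen B → A ∪ B = univ →
      (∀ w ∈ A, ¬ TwoGeod (f w) (P w)) → (∀ w ∈ B, ¬ TwoGeod (f w) (Q w)) →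
      ContinuousOn κ B → (∀ w ∈ B, Trk (κ w) (Q w) (P w) (dist (Q w) (P w))) →
      (∀ w ∈ A ∩ B, dist (f w) (P w) + dist (f w) (Q w) + dist (Q w) (P w) ≤ c) →
      ClosedGeod X c ∨ f.Homotopic P := by
    intro W _ _ f P Q A B κ c hc hA hB hAB hfP hfQ hκ hκ1 hcc
    refine h1 W f P A B (fun w => Θ (f w, P w))
      (fun w => Pool.Agent.L7h61.CL.seq (Θ (f w, Q w)) (κ w) (dist (f w) (Q w)))
      (fun w => dist (f w) (P w)) (fun w => dist (f w) (Q w) + dist (Q w) (P w)) c hc hA hB hAB
      (hfield W f P A hfP) ?_ (hdc W f P).continuousOn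
      ((hdc W f Q).add (hdc W Q P)).continuousOn
      (fun w _ => ⟨hΘ1 (f w, P w), dist_nonneg⟩) (fun w hw => ⟨?_, by positivity⟩) ?_
    · exact seq_cont (x := fun w => f w) (y := fun w => Q w) (z := fun w => P w)
        (hfield W f Q B hfQ) hκ (hdc W f Q).continuousOn (fun w _ => hΘ1 (f w, Q w)) hκ1
    · exact Trk.seq (hΘ1 (f w, Q w)) (hκ1 w hw) dist_nonneg dist_nonneg
    · intro w hw
      have := hcc w hw
      linarith
  have h3 : ∀ (p q : X) (A B : Set X) (c : ℝ), IsOpen A → IsOpen B → A ∪ B = univ →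
      (∀ x ∈ A, ¬ TwoGeod x p) → (∀ x ∈ B, ¬ TwoGeod x q) →
      (∀ x ∈ A ∩ B, dist x p + dist x q + dist p q ≤ c) → ¬ ContractibleSpace X → 0 < c →
      ClosedGeod X c := by
    intro p q A B c hA hB hAB hp hq hc hcon hc0
    have h4 := h2 X (ContinuousMap.id X) (ContinuousMap.const X p) (ContinuousMap.const X q) A B
      (fun _ => Θ (q, p)) c hc0 hA hB hAB hp hq continuousOn_const
      (fun w _ => hΘ1 (q, p)) (by
        intro w hw
        have := hc w hw
        rw [dist_comm p q] at this
        exact this)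
    rcases h4 with h4 | h4
    · exact h4
    · exfalso
      apply hcon
      rw [contractible_iff_id_nullhomotopic]
      exact ⟨p, h4⟩
  refine ⟨h1, ?_, h3, ?_⟩
  · intro W _ _ f P Q A B c hc hA hB hAB hfP hfQ hQP hcc
    exact h2 W f P Q A B (fun w => Θ (Q w, P w)) c hc hA hB hAB hfP hfQ (hfield W Q P B hQP)
      (fun w _ => hΘ1 (Q w, P w)) hcc
  · intro p q hdisj hcon
    have hbd : Bornology.IsBounded (univ : Set X) := isCompact_univ.isBounded
    have hdD : ∀ x y : X, dist x y ≤ Metric.diam (univ : Set X) := fun x y =>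
      Metric.dist_le_diam_of_mem hbd (mem_univ x) (mem_univ y)
    have hsymm : ∀ x y : X, TwoGeod x y → TwoGeod y x := by
      rintro x y ⟨z, w, hne, hz, hw, hzw⟩
      refine ⟨z, w, hne, ?_, ?_, ?_⟩
      · rw [dist_comm y z, dist_comm z x, dist_comm y x]
        linarith
      · rw [dist_comm y w, dist_comm w x, dist_comm y x]
        linarith
      · rw [dist_comm y z, dist_comm y w]
        linarith
    have hpos : 0 < Metric.diam (univ : Set X) := by
      by_contra h
      apply hcon
      have hsub : Subsingleton X := ⟨fun x y => by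
        have h1 := hdD x y
        have h2 : dist x y ≤ 0 := by linarith
        exact dist_le_zero.1 h2⟩
      have : Nonempty X := ⟨p⟩
      exact contractible_of X p ⟨fun x _ => x, continuous_fst, fun k => Subsingleton.elim _ _,
        fun _ => rfl⟩
    refine h3 p q (CutLocus p)ᶜ (CutLocus q)ᶜ _ isClosed_closure.isOpen_compl
      isClosed_closure.isOpen_compl ?_ ?_ ?_ ?_ hcon (by linarith)
    · rw [← compl_inter, hdisj.inter_eq, compl_empty]
    · intro x hx h
      exact hx (subset_closure (hsymm _ _ h))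
    · intro x hx h
      exact hx (subset_closure (hsymm _ _ h))
    · intro x _
      have e1 := hdD x p
      have e2 := hdD x q
      have e3 := hdD p q
      linarith

end Pool.Agent.Results.MP_3eff7f_gt.DisjointCutLoci
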