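import Pool.Agent.L7h61.CL.Three
import Pool.Agent.L7h89.TM.Soft

/-!
# Short periodic geodesics and points with three minimal geodesics

`X` is a compact metric space in which any two points are joined by a minimal geodesic and minimal
geodesics between points at distance less than `r` are unique, and a Euclidean neighbourhood retract
(every closed Riemannian manifold).

1. Let `f, g : W → X` be continuous maps of a compact metric space, and let there be given a closed
   family of curves of length at most `L` from `f w` to `g w`, with one or two curves for every `w`.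
   Then `X` has a periodic geodesic of length at most `2 L`, or `f` and `g` are homotopic.
2. If `f` and `g` are not homotopic and `d(f, g) ≤ L`, then `X` has a periodic geodesic of length at
   most `2 L`, or for some `w` there are at least three minimal geodesics from `f w` to `g w`.
3. Let `X` be not contractible (every closed manifold of positive dimension), and `p` a point with
   `d(p, x) ≤ L` for all `x`. Then `X` has a periodic geodesic of length at most `2 L`, or `p` is
   joined to some point by at least three minimal geodesics.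
4. So `X` has a periodic geodesic of length at most `2 diam X`, or every point is joined to some
   point by at least three minimal geodesics.
-/

set_option autoImplicit false

open Set Topology

namespace Pool.Agent.Results.MP_3eff7f_gt.ThreeMinimalGeodesics

open Pool.Agent.Y489.GE Pool.Agent.L7h61.CL

theorem result (X : Type) [MetricSpace X] [CompactSpace X] (hE : ENR X) (r : ℝ) (hr : 0 < r)
    (hX : GeodSpace X) (hU : UniqGeod X r) :
    (∀ (W : Type) [MetricSpace W] [CompactSpace W] (f g : C(W, X)) (L : ℝ)
      (S : Set (W × (ℝ → X))), 0 < L → IsClosed S → (∀ w, ∃ γ, (w, γ) ∈ S) →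
      (∀ w α β γ, (w, α) ∈ S → (w, β) ∈ S → (w, γ) ∈ S → α = β ∨ α = γ ∨ β = γ) →
      (∀ z ∈ S, Trk z.2 (f z.1) (g z.1) L) → ClosedGeod X (2 * L) ∨ f.Homotopic g) ∧
    (∀ (W : Type) [MetricSpace W] [CompactSpace W] (f g : C(W, X)) (L : ℝ), 0 < L →
      (∀ w, dist (f w) (g w) ≤ L) → ¬ f.Homotopic g →
      ClosedGeod X (2 * L) ∨ ∃ w, ¬ AtMostTwo (f w) (g w)) ∧
    (¬ ContractibleSpace X → ∀ (p : X) (L : ℝ), (∀ x, dist p x ≤ L) →
      ClosedGeod X (2 * L) ∨ ∃ x : X, ¬ AtMostTwo p x) ∧
    (¬ ContractibleSpace X → ClosedGeod X (2 * Metric.diam (univ : Set X)) ∨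
      ∀ p : X, ∃ x : X, ¬ AtMostTwo p x) := by
  classical
  have h1 : ∀ (W : Type) [MetricSpace W] [CompactSpace W] (f g : C(W, X)) (L : ℝ)
      (S : Set (W × (ℝ → X))), 0 < L → IsClosed S → (∀ w, ∃ γ, (w, γ) ∈ S) →
      (∀ w α β γ, (w, α) ∈ S → (w, β) ∈ S → (w, γ) ∈ S → α = β ∨ α = γ ∨ β = γ) →
      (∀ z ∈ S, Trk z.2 (f z.1) (g z.1) L) → ClosedGeod X (2 * L) ∨ f.Homotopic g := by
    intro W _ _ f g L S hL hS hne h2 hT
    exact three_main Pool.Agent.L7h89.TM.s_SOFT X hE r hr hX hU W f g L S hL hS hne h2 hT
  have h2 : ∀ (W : Type) [MetricSpace W] [CompactSpace W] (f g : C(W, X)) (L : ℝ), 0 < L →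
      (∀ w, dist (f w) (g w) ≤ L) → ¬ f.Homotopic g →
      ClosedGeod X (2 * L) ∨ ∃ w, ¬ AtMostTwo (f w) (g w) := by
    intro W _ _ f g L hL hd hnh
    by_cases h : ∃ w, ¬ AtMostTwo (f w) (g w)
    · exact Or.inr h
    · left
      push Not at h
      obtain ⟨Θ, hΘ, -⟩ := exists_field hX
      rcases h1 W f g L {z | MinGeod (f z.1) (g z.1) z.2} hL (minGeod_closed f g)
        (fun w => ⟨Θ (f w, g w), hΘ (f w, g w)⟩) (fun w α β γ ha hb hc => h w α β γ ha hb hc)
        (fun z hz => Trk.mono' hz (hd z.1)) with h3 | h3
      · exact h3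
      · exact absurd h3 hnh
  have h3 : ¬ ContractibleSpace X → ∀ (p : X) (L : ℝ), (∀ x, dist p x ≤ L) →
      ClosedGeod X (2 * L) ∨ ∃ x : X, ¬ AtMostTwo p x := by
    intro hcon p L hd
    have hpos : 0 < L := by
      by_contra h
      apply hcon
      have hsub : ∀ x : X, x = p := fun x => by
        have h1 := hd x
        have h2 : dist p x ≤ 0 := by linarith
        exact (dist_le_zero.1 h2).symm
      exact contractible_of X p ⟨fun x _ => x, continuous_fst, fun k => hsub k, fun _ => rfl⟩
    have hnh : ¬ (ContinuousMap.const X p).Homotopic (ContinuousMap.id X) := by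
      intro h
      apply hcon
      rw [contractible_iff_id_nullhomotopic]
      exact ⟨p, h.symm⟩
    exact h2 X (ContinuousMap.const X p) (ContinuousMap.id X) L hpos (fun w => hd w) hnh
  refine ⟨h1, h2, h3, fun hcon => ?_⟩
  by_cases hno : ClosedGeod X (2 * Metric.diam (univ : Set X))
  · exact Or.inl hno
  · right
    intro p
    have hbd : Bornology.IsBounded (univ : Set X) := isCompact_univ.isBounded
    exact (h3 hcon p _ fun x =>
      Metric.dist_le_diam_of_mem hbd (mem_univ p) (mem_univ x)).resolve_left hno

end Pool.Agent.Results.MP_3eff7f_gt.ThreeMinimalGeodesics
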