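import Pool.Agent.L7h84.TT.Main
import Pool.Agent.L7h84.TT.Round
import Pool.Agent.L7h34.TT.Sing
import Pool.Agent.L7h34.TT.Vol

/-!
# Sharp short periodic geodesics for all metrics on `S³` with a torus symmetry

Up to isometry the metrics on `S³` which are invariant under an effective smooth action of the torus
`T²` are the metrics `dr² + f(r)² dα² + 2 σ(r) f(r)² h(r)² dα dβ + h(r)² dβ²`, `0 ≤ r ≤ L`, in the
coordinates `(sin (π r / 2 L) exp (i α), cos (π r / 2 L) exp (i β))` of `S³ ⊂ ℂ²`, with `f`, `h`, `σ` as in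
`IsTorusMetric L f h σ`; `L` is the distance of the two singular orbits, so `L ≤ diam`.
`IsGeodesicT L f h σ v γ`: `γ` is a geodesic of speed `v` of this metric.

For every such metric there is a unit speed periodic geodesic of period `T ≤ 4 L` with
`T³ vol(S³) ≤ (2π)³ vol(M)`, `vol(S³) = 2π²`.  For the round metric every periodic geodesic has length
`≥ 2π`, so the constant is optimal.

The diagonal case `σ = 0` is the case `k = m = 2` of the starting file `BirotationalSpheres`.

Proof. For a covector `c` of the torus let `V_c(r)` be its norm squared on the orbit at `r`.  For an integral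
vector `n = (j, m)`, `j m ≠ 0`, `|j| = 1` or `|m| = 1`, one minimises `2 ∫_p^q √(1 - V_c) + 2π ⟨c, n⟩` over
all `c`, `p ≤ q` such that `V_c ≤ 1` at `p` and `q` and such that the velocity of `c` is at `p` and at `q`
on different sides of `n`.  A minimum which is at most `2π R`, `R³ = 2 ∫ √(det)`, is a periodic geodesic, by
the first variation, also when an end point lies on a singular orbit (`case_reg`, `case_core`).  If the
minimum is larger than `2π R` for all `n`, then the action of `c` is at least `2π (R' - |c₁| - |c₂|)` with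
`R' > R`, and the integral over `c` gives a contradiction.
-/

open Real Set MeasureTheory

namespace Pool.Agent.Results.MP_3eff7f_gt.TorusInvariantSpheres

open Pool.Agent.L7h84.TT

/-- Every metric on `S³` invariant under the torus `T²` has a unit speed geodesic of period `T` with
`T³ vol(S³) ≤ (2π)³ vol(M)` and `T ≤ 4 L`, `L` the distance of the two singular orbits; for the round
metric all periodic geodesics have length `≥ 2π`. -/
theorem result :
    (∀ (L : ℝ) (f h σ : ℝ → ℝ), IsTorusMetric L f h σ →
      ∃ (T : ℝ) (γ : ℝ → ℂ × ℂ), 0 < T ∧ IsGeodesicT L f h σ 1 γ ∧ (∀ t, γ (t + T) = γ t) ∧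
        T ^ 3 * (2 * π ^ 2) ≤ (2 * π) ^ 3 *
          ((2 * π) ^ 2 * ∫ r in (0 : ℝ)..L, √(gA f r * gC h r - gB f h σ r ^ 2)) ∧
        T ≤ 4 * L) ∧
    (IsTorusMetric (π / 2) Real.sin Real.cos (fun _ => 0) ∧
      ∀ (γ : ℝ → ℂ × ℂ) (v T : ℝ), 0 < v → 0 < T →
        IsGeodesicT (π / 2) Real.sin Real.cos (fun _ => 0) v γ → (∀ t, γ (t + T) = γ t) →
        2 * π ≤ v * T) := by
  refine ⟨fun L f h σ M => ?_, s_ROUND⟩
  obtain ⟨T, hT, ⟨γ, hγ, hper⟩, h1, h2⟩ := main Pool.Agent.L7h34.TT.s_SING Pool.Agent.L7h34.TT.s_VOL M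
  exact ⟨T, γ, hT, hγ, hper, h1, h2⟩

end Pool.Agent.Results.MP_3eff7f_gt.TorusInvariantSpheres
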